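import Pool.Agent.W312.WT.Stm

set_option autoImplicit false

/-!
# The basic inequality for two completion times
-/

namespace Pool.Agent.W303.WT

open Pool.Agent.W312.WT

/-- the basic inequality -/
theorem proof_SNecB : Pool.Agent.W312.WT.SNecB := by
  intro hLen hCpl p n S u v hp huv hle
  classical
  obtain ⟨⟨qu, hqu, hquT⟩, -⟩ := hCpl p n S u hp
  have hT0 : 0 ≤ S.compl u := by
    have h1 := S.pos u qu hqu
    linarith
  set T : ℝ := S.compl u with hT
  -- the work on one machine
  have hmach : ∀ b : Bool, ∑ i : Fin n, ∑ q ∈ (S.pieces i).filter (fun q => q.1 = b),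
      (min q.2.2 T - min q.2.1 T) ≤ T := by
    intro b
    have h1 := hLen (Σ _ : Fin n, Bool × ℝ × ℝ)
      (Finset.univ.sigma fun i => (S.pieces i).filter (fun q => q.1 = b))
      (fun x => min x.2.2.1 T) (fun x => min x.2.2.2 T) 0 T hT0 (by
        rintro ⟨i, q⟩ hx
        rw [Finset.mem_sigma, Finset.mem_filter] at hx
        have h2 := S.pos i q hx.2.1
        exact ⟨le_min h2.1 hT0, min_le_min_right _ h2.2.le, min_le_right _ _⟩) (by
        rintro ⟨i, q⟩ hx ⟨j, r⟩ hy hne
        rw [Finset.mem_sigma, Finset.mem_filter] at hx hy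
        have h3 : (i, q) ≠ (j, r) := by
          intro h4
          apply hne
          rw [Prod.mk.injEq] at h4
          obtain ⟨rfl, rfl⟩ := h4
          rfl
        rcases S.disj i j q hx.2.1 r hy.2.1 h3 (Or.inr (hx.2.2.trans hy.2.2.symm)) with h | h
        · exact Or.inl (min_le_min_right _ h)
        · exact Or.inr (min_le_min_right _ h))
    rw [Finset.sum_sigma, sub_zero] at h1
    exact h1
  have htot : ∑ i : Fin n, ∑ q ∈ S.pieces i, (min q.2.2 T - min q.2.1 T) ≤ 2 * T := by
    have h1 : ∀ i : Fin n, ∑ q ∈ S.pieces i, (min q.2.2 T - min q.2.1 T) =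
        ∑ q ∈ (S.pieces i).filter (fun q => q.1 = true), (min q.2.2 T - min q.2.1 T) +
        ∑ q ∈ (S.pieces i).filter (fun q => q.1 = false), (min q.2.2 T - min q.2.1 T) := by
      intro i
      rw [← Finset.sum_filter_add_sum_filter_not (S.pieces i) (fun q => q.1 = true)]
      congr 2
      ext q
      simp
    rw [Finset.sum_congr rfl fun i _ => h1 i, Finset.sum_add_distrib]
    have h2 := hmach true
    have h3 := hmach false
    linarith
  -- nonnegativity
  have hnn : ∀ i : Fin n, 0 ≤ ∑ q ∈ S.pieces i, (min q.2.2 T - min q.2.1 T) := by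
    intro i
    refine Finset.sum_nonneg fun q hq => ?_
    have h1 : min q.2.1 T ≤ min q.2.2 T := min_le_min_right _ (S.pos i q hq).2.le
    linarith
  set A : Finset (Fin n) := Finset.univ.filter fun i : Fin n => i ≠ v ∧ S.compl i ≤ T with hA
  -- the jobs completed before
  have hjob : ∀ i ∈ A, ∑ q ∈ S.pieces i, (min q.2.2 T - min q.2.1 T) = p := by
    intro i hi
    rw [hA, Finset.mem_filter] at hi
    rw [← S.total i]
    refine Finset.sum_congr rfl fun q hq => ?_
    have h1 := (hCpl p n S i hp).2 q hq
    have h2 := S.pos i q hq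
    rw [min_eq_left (h1.trans hi.2.2), min_eq_left (by linarith [hi.2.2])]
  -- the job `v`
  have hv : (p : ℝ) - (S.compl v - T) ≤ ∑ q ∈ S.pieces v, (min q.2.2 T - min q.2.1 T) := by
    have h1 := hLen (Bool × ℝ × ℝ) (S.pieces v) (fun q => max q.2.1 T) (fun q => max q.2.2 T)
      T (S.compl v) hle (by
        intro q hq
        have h2 := S.pos v q hq
        exact ⟨le_max_right _ _, max_le_max_right _ h2.2.le,
          max_le ((hCpl p n S v hp).2 q hq) hle⟩) (by
        intro q hq r hr hne
        have h3 : (v, q) ≠ (v, r) := by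
          intro h4
          rw [Prod.mk.injEq] at h4
          exact hne h4.2
        rcases S.disj v v q hq r hr h3 (Or.inl rfl) with h | h
        · exact Or.inl (max_le_max_right _ h)
        · exact Or.inr (max_le_max_right _ h))
    have h2 : ∑ q ∈ S.pieces v, (min q.2.2 T - min q.2.1 T) =
        p - ∑ q ∈ S.pieces v, (max q.2.2 T - max q.2.1 T) := by
      rw [← S.total v, ← Finset.sum_sub_distrib]
      refine Finset.sum_congr rfl fun q _ => ?_
      have h3 := min_add_max q.2.2 T
      have h4 := min_add_max q.2.1 T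
      linarith
    rw [h2]
    linarith
  have hvA : v ∉ A := by
    rw [hA, Finset.mem_filter]
    exact fun h => h.2.1 rfl
  have hsum : ∑ i ∈ insert v A, ∑ q ∈ S.pieces i, (min q.2.2 T - min q.2.1 T) ≤
      ∑ i : Fin n, ∑ q ∈ S.pieces i, (min q.2.2 T - min q.2.1 T) :=
    Finset.sum_le_sum_of_subset_of_nonneg (Finset.subset_univ _) fun i _ _ => hnn i
  rw [Finset.sum_insert hvA, Finset.sum_congr rfl hjob, Finset.sum_const, nsmul_eq_mul] at hsum
  linarith

end Pool.Agent.W303.WT
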